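import Pool.Agent.CWR.MainR
import Pool.Agent.CWR.RoIn

/-!
# Hitting sets of polynomial size for read-once branching programs of constant width in unknown order

Black-box identity testing, in polynomial time, for read-once oblivious algebraic branching programs
of constant width in unknown variable order, for their orbits under invertible affine substitutions,
and for formulas of bounded depth with such programs and gates of bounded occurrence as gates.
-/

set_option autoImplicit false

namespace Pool.Agent.Results.MP_e2be99_lc.ConstantWidth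

open MvPolynomial Pool.Agent.ORB Pool.Agent.CWR

theorem result (n κ k w s Δ D : ℕ) :
    (hittingSet n (ordT n κ k w s Δ) (Etot κ k w Δ) (D * (ordT n κ k w s Δ + 1))).card ≤
      (D * (ordT n κ k w s Δ + 1) + 1) ^ (3 + 2 * Etot κ k w Δ) ∧
    (∀ x ∈ hittingSet n (ordT n κ k w s Δ) (Etot κ k w Δ) (D * (ordT n κ k w s Δ + 1)), ∀ i,
      x i ≤ (1 + (Etot κ k w Δ + 1) * (D * (ordT n κ k w s Δ + 1))) * (ordT n κ k w s Δ *
        ((ordT n κ k w s Δ).factorial *
          (n * (D * (ordT n κ k w s Δ + 1)) + 1) ^ ordT n κ k w s Δ))) ∧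
    ∀ (K : Type*) [Field K] [CharZero K],
      (∀ g : MvPolynomial (Fin n) K, g.support.card ≤ s → MixedLeaf ∅ s g) ∧
      (∀ (A : Matrix (Fin n) (Fin n) K) (b : Fin n → K) (blk : Fin n → ℕ) (q : ℕ)
        (F : MvPolynomial (Fin n) K), A.det ≠ 0 →
        (∀ l, (Finset.univ.filter fun v => blk v = l).card ≤ q) → ROABP blk w F →
        OrbitCirc q 1 w 1 2 (aff A b F)) ∧
      (∀ (m : ℕ) (g : Fin m → MvPolynomial (Fin n) K), (∀ j, OrbitCirc κ k w s Δ (g j)) →
        (∀ j, g j ≠ 0) → ∀ f : MvPolynomial (Fin n) K, f ∣ ∏ j, g j → f.totalDegree ≤ D →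
        ∃ x ∈ hittingSet n (ordT n κ k w s Δ) (Etot κ k w Δ) (D * (ordT n κ k w s Δ + 1)),
          eval (fun i => (x i : K)) f ≠ 0) :=
  ⟨card_hittingSet n _ _ _, fun x hx i => bound_hittingSet n _ _ _ x hx i, fun _ _ _ =>
    ⟨fun _ hg => mixedLeaf_of_support hg,
      fun A b _ _ _ hA hq hF => orbitCirc_of_roabp hq hF A hA b,
      fun m g hg hg0 f hf hD => main_hit κ k w s Δ D m g hg hg0 f hf hD⟩⟩

end Pool.Agent.Results.MP_e2be99_lc.ConstantWidth
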